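import Pool.Agent.H375R3.OG.Stmts

set_option autoImplicit false

namespace H375.OG

open H112 Finset
open scoped InnerProductSpace

/-- near orthogonality -/
theorem near_orth {k : ℕ} (b : OrthonormalBasis (Fin k) ℝ (EuclideanSpace ℝ (Fin k)))
    (a : Fin k → EuclideanSpace ℝ (Fin k)) (Q : Fin k → ℝ) (hQ : ∀ i, 0 < Q i)
    (ha : ∀ i, ‖a i - Q i • b i‖ ≤ Q i / (2 * k)) (t : Fin k → ℝ) (i : Fin k) :
    |t i| * Q i ≤ 2 * ‖∑ j, t j • a j‖ := by
  have hk : 0 < k := i.pos
  have hkR : (0 : ℝ) < k := by exact_mod_cast hk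
  obtain ⟨i₀, _, hi₀⟩ := Finset.exists_max_image univ (fun j => |t j| * Q j) ⟨i, mem_univ i⟩
  have h1 : |t i| * Q i ≤ |t i₀| * Q i₀ := hi₀ i (mem_univ i)
  refine h1.trans ?_
  set S : ℝ := ∑ j, t j * ⟪b i₀, a j - Q j • b j⟫_ℝ with hS
  have h2 : ⟪b i₀, ∑ j, t j • a j⟫_ℝ = t i₀ * Q i₀ + S := by
    rw [inner_sum]
    have h3 : ∀ j, ⟪b i₀, t j • a j⟫_ℝ = t j * (Q j * (if i₀ = j then 1 else 0)) +
        t j * ⟪b i₀, a j - Q j • b j⟫_ℝ := by
      intro j
      rw [inner_smul_right, inner_sub_right, inner_smul_right,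
        orthonormal_iff_ite.1 b.orthonormal i₀ j]
      ring
    rw [Finset.sum_congr rfl fun j _ => h3 j, Finset.sum_add_distrib]
    congr 1
    simp
  have h3 : |S| ≤ |t i₀| * Q i₀ / 2 := by
    calc |S| ≤ ∑ j, |t j * ⟪b i₀, a j - Q j • b j⟫_ℝ| := Finset.abs_sum_le_sum_abs _ _
      _ ≤ ∑ j : Fin k, |t i₀| * Q i₀ / (2 * k) := by
        refine Finset.sum_le_sum fun j _ => ?_
        rw [abs_mul]
        have h4 : |⟪b i₀, a j - Q j • b j⟫_ℝ| ≤ Q j / (2 * k) := by
          refine (abs_real_inner_le_norm _ _).trans ?_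
          rw [b.orthonormal.1 i₀, one_mul]
          exact ha j
        calc |t j| * |⟪b i₀, a j - Q j • b j⟫_ℝ| ≤ |t j| * (Q j / (2 * k)) :=
              mul_le_mul_of_nonneg_left h4 (abs_nonneg _)
          _ = |t j| * Q j / (2 * k) := by ring
          _ ≤ |t i₀| * Q i₀ / (2 * k) :=
              div_le_div_of_nonneg_right (hi₀ j (mem_univ j)) (by positivity)
      _ = |t i₀| * Q i₀ / 2 := by
        rw [Finset.sum_const, Finset.card_univ, Fintype.card_fin, nsmul_eq_mul]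
        field_simp
  have h5 : |⟪b i₀, ∑ j, t j • a j⟫_ℝ| ≤ ‖∑ j, t j • a j‖ := by
    refine (abs_real_inner_le_norm _ _).trans ?_
    rw [b.orthonormal.1 i₀, one_mul]
  have h6 : |t i₀| * Q i₀ = |t i₀ * Q i₀| := by rw [abs_mul, abs_of_pos (hQ i₀)]
  have h7 : |t i₀ * Q i₀| ≤ |⟪b i₀, ∑ j, t j • a j⟫_ℝ| + |S| := by
    rw [h2]
    calc |t i₀ * Q i₀| = |(t i₀ * Q i₀ + S) - S| := by rw [add_sub_cancel_right]
      _ ≤ |t i₀ * Q i₀ + S| + |S| := abs_sub _ _
  linarith

/-- nearly orthogonal lattice vectors, of lengths comparable with the successive minima -/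
theorem exists_a {k : ℕ} (hk : 0 < k) (Λ : AddSubgroup (EuclideanSpace ℝ (Fin k)))
    (F : Set (EuclideanSpace ℝ (Fin k))) (hF : F.Finite) (hFΛ : ∀ x ∈ F, x ∈ Λ)
    (h1 : ∀ x ∈ Λ, ‖x‖ ≤ (√k)⁻¹ → x ∈ F) (h2 : ∀ x ∈ F, ‖x‖ ≤ √k)
    (hspan : Submodule.span ℝ F = ⊤) :
    ∃ (b : OrthonormalBasis (Fin k) ℝ (EuclideanSpace ℝ (Fin k))) (l : Fin k → ℝ)
      (a : Fin k → EuclideanSpace ℝ (Fin k)),
      (∀ i, 0 < l i) ∧ (∀ i, l i ≤ √k) ∧ (∀ i j, i ≤ j → l i ≤ l j) ∧ (∀ i, a i ∈ Λ) ∧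
      (∀ i, ‖a i - ((k : ℝ) ^ 2 * l i) • b i‖ ≤ ((k : ℝ) ^ 2 * l i) / (2 * k)) ∧
      (∀ i j, i < j → ⟪b j, a i⟫_ℝ = 0) ∧
      (∀ z ∈ Λ, ∀ j, ⟪b j, z⟫_ℝ ≠ 0 → l j ≤ k * ‖z‖) ∧
      ∏ i, (2 * ⌊1 / ((k : ℝ) ^ 2 * l i)⌋₊ + 1) ≤ F.ncard := by
  classical
  have hfr : Module.finrank ℝ (EuclideanSpace ℝ (Fin k)) = k := by simp
  obtain ⟨v, hv, hvF, hmin⟩ := john_greedy F hF hspan k hfr.ge
  have hk' : (1 : ℝ) ≤ k := by exact_mod_cast hk
  have hk0 : (0 : ℝ) < k := by linarith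
  have hl : ∀ i, 0 < ‖v i‖ := fun i => norm_pos_iff.mpr (hv.ne_zero i)
  obtain ⟨b, hb⟩ : ∃ b, b = InnerProductSpace.gramSchmidtOrthonormalBasis (𝕜 := ℝ)
    (by rw [hfr, Fintype.card_fin]) v := ⟨_, rfl⟩
  have htri : ∀ i j, i < j → ⟪b j, v i⟫_ℝ = 0 := fun i j hij => by
    rw [hb]
    exact InnerProductSpace.gramSchmidtOrthonormalBasis_inv_triangular _ _ hij
  have hnotin : ∀ (i : Fin k) (x : EuclideanSpace ℝ (Fin k)), ⟪b i, x⟫_ℝ ≠ 0 →
      x ∉ Submodule.span ℝ (v '' {l | l < i}) := by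
    intro i x hx hmem
    apply hx
    refine Submodule.span_induction (p := fun y _ => ⟪b i, y⟫_ℝ = 0) ?_ ?_ ?_ ?_ hmem
    · rintro _ ⟨l, hl, rfl⟩
      exact htri l i hl
    · exact inner_zero_right _
    · intro y z _ _ hy hz
      rw [inner_add_right, hy, hz, add_zero]
    · intro c y _ hy
      rw [inner_smul_right, hy, mul_zero]
  have hmono : ∀ i j : Fin k, i ≤ j → ‖v i‖ ≤ ‖v j‖ := by
    intro i j hij
    refine hmin i (v j) (hvF j) ?_
    apply hv.notMem_span_image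
    intro h
    exact absurd h (not_lt.mpr hij)
  -- the basis v
  have hcard : Fintype.card (Fin k) = Module.finrank ℝ (EuclideanSpace ℝ (Fin k)) := by
    rw [hfr, Fintype.card_fin]
  have : Nonempty (Fin k) := ⟨⟨0, hk⟩⟩
  obtain ⟨B, hB⟩ : ∃ B : Module.Basis (Fin k) ℝ (EuclideanSpace ℝ (Fin k)), ⇑B = v :=
    ⟨basisOfLinearIndependentOfCardEqFinrank hv hcard,
      coe_basisOfLinearIndependentOfCardEqFinrank hv hcard⟩
  have hbspan : ∀ i, b i ∈ Submodule.span ℝ (v '' Set.Iic i) := by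
    intro i
    have hne : InnerProductSpace.gramSchmidtNormed ℝ v i ≠ 0 := by
      have h3 := InnerProductSpace.gramSchmidtNormed_unit_length (𝕜 := ℝ) (f := v) i hv
      intro h
      rw [h, norm_zero] at h3
      exact zero_ne_one h3
    rw [hb, InnerProductSpace.gramSchmidtOrthonormalBasis_apply _ hne,
      InnerProductSpace.gramSchmidtNormed]
    exact Submodule.smul_mem _ _ (InnerProductSpace.gramSchmidt_mem_span ℝ v le_rfl)
  have hrepr0 : ∀ i j, i < j → B.repr (b i) j = 0 := by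
    intro i j hij
    have h3 := hbspan i
    rw [← hB, Module.Basis.mem_span_image] at h3
    by_contra h4
    have h5 : j ∈ ((B.repr (b i)).support : Set (Fin k)) := by
      rw [Finset.mem_coe, Finsupp.mem_support_iff]; exact h4
    exact absurd (h3 h5) (not_le.2 hij)
  -- the vectors a
  obtain ⟨t, ht⟩ : ∃ t : Fin k → Fin k → ℝ,
    t = fun i j => (k : ℝ) ^ 2 * ‖v i‖ * B.repr (b i) j := ⟨_, rfl⟩
  have ht0 : ∀ i j, i < j → t i j = 0 := by
    intro i j hij
    rw [ht]
    simp only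
    rw [hrepr0 i j hij, mul_zero]
  have hsum : ∀ i, ((k : ℝ) ^ 2 * ‖v i‖) • b i = ∑ j, t i j • v j := by
    intro i
    have h3 := B.sum_repr (b i)
    rw [hB] at h3
    conv_lhs => rw [← h3]
    rw [Finset.smul_sum]
    refine Finset.sum_congr rfl fun j _ => ?_
    rw [smul_smul, ht]
  refine ⟨b, fun i => ‖v i‖, fun i => ∑ j, (round (t i j)) • v j, hl, fun i => h2 _ (hvF i),
    hmono, ?_, ?_, ?_, ?_, ?_⟩
  · intro i
    exact AddSubgroup.sum_mem _ fun j _ => AddSubgroup.zsmul_mem _ (hFΛ _ (hvF j)) _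
  · intro i
    simp only
    rw [hsum i, ← Finset.sum_sub_distrib]
    calc ‖∑ j, ((round (t i j)) • v j - t i j • v j)‖
        ≤ ∑ j, ‖(round (t i j)) • v j - t i j • v j‖ := norm_sum_le _ _
      _ ≤ ∑ j : Fin k, ‖v i‖ / 2 := by
          refine Finset.sum_le_sum fun j _ => ?_
          rcases lt_or_ge i j with hij | hij
          · rw [ht0 i j hij, round_zero, zero_smul, zero_smul, sub_zero, norm_zero]
            have := hl i
            positivity
          · rw [← Int.cast_smul_eq_zsmul ℝ, ← sub_smul, norm_smul, Real.norm_eq_abs]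
            have h3 : |((round (t i j) : ℤ) : ℝ) - t i j| ≤ 1 / 2 := by
              rw [abs_sub_comm]
              exact abs_sub_round _
            have h4 := hmono j i hij
            calc |((round (t i j) : ℤ) : ℝ) - t i j| * ‖v j‖ ≤ 1 / 2 * ‖v i‖ :=
                  mul_le_mul h3 h4 (norm_nonneg _) (by norm_num)
              _ = ‖v i‖ / 2 := by ring
      _ = ((k : ℝ) ^ 2 * ‖v i‖) / (2 * k) := by
          rw [Finset.sum_const, Finset.card_univ, Fintype.card_fin, nsmul_eq_mul]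
          field_simp
  · intro i j hij
    simp only
    rw [inner_sum]
    refine Finset.sum_eq_zero fun l _ => ?_
    rw [← Int.cast_smul_eq_zsmul ℝ, inner_smul_right]
    rcases lt_or_ge i l with hil | hil
    · rw [ht0 i l hil, round_zero, Int.cast_zero, zero_mul]
    · rw [htri l j (lt_of_le_of_lt hil hij), mul_zero]
  · intro z hz j hzj
    simp only
    have h3 := hnotin j z hzj
    rcases le_or_gt ‖z‖ (√k)⁻¹ with h4 | h4
    · have h5 := hmin j z (h1 z hz h4) h3
      have h6 : ‖z‖ ≤ k * ‖z‖ := le_mul_of_one_le_left (norm_nonneg _) hk'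
      linarith
    · have h5 : ‖v j‖ ≤ √k := h2 _ (hvF j)
      have hs0 : 0 < √(k : ℝ) := Real.sqrt_pos.2 hk0
      have hss : √(k : ℝ) * √k = k := Real.mul_self_sqrt hk0.le
      have h6 : √(k : ℝ) = k * (√k)⁻¹ := by
        field_simp
        rw [sq]
        exact hss
      have h7 : (k : ℝ) * (√k)⁻¹ ≤ k * ‖z‖ := mul_le_mul_of_nonneg_left h4.le hk0.le
      linarith
  · obtain ⟨L, hL⟩ : ∃ L : Fin k → ℕ, L = fun i => ⌊1 / ((k : ℝ) ^ 2 * ‖v i‖)⌋₊ := ⟨_, rfl⟩
    have hLi : ∀ i, L i = ⌊1 / ((k : ℝ) ^ 2 * ‖v i‖)⌋₊ := fun i => by rw [hL]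
    simp only [← hLi]
    set T : Finset (Fin k → ℤ) := Fintype.piFinset fun i => Finset.Icc (-(L i : ℤ)) (L i : ℤ)
      with hT
    have hTc : T.card = ∏ i, (2 * L i + 1) := by
      rw [hT, Fintype.card_piFinset]
      refine Finset.prod_congr rfl fun i _ => ?_
      rw [Int.card_Icc]
      omega
    rw [← hTc]
    have himg : ((fun c : Fin k → ℤ => ∑ i, c i • v i) '' (T : Set (Fin k → ℤ))) ⊆ F := by
      rintro _ ⟨c, hc, rfl⟩
      apply h1
      · exact AddSubgroup.sum_mem _ fun i _ => AddSubgroup.zsmul_mem _ (hFΛ _ (hvF i)) _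
      · calc ‖∑ i, c i • v i‖ ≤ ∑ i, ‖c i • v i‖ := norm_sum_le _ _
          _ ≤ ∑ i : Fin k, 1 / (k : ℝ) ^ 2 := by
              refine Finset.sum_le_sum fun i _ => ?_
              rw [← Int.cast_smul_eq_zsmul ℝ, norm_smul, Real.norm_eq_abs]
              have h6 : |(c i : ℝ)| ≤ L i := by
                rw [hT, Finset.mem_coe, Fintype.mem_piFinset] at hc
                have := Finset.mem_Icc.1 (hc i)
                have h8 : |c i| ≤ L i := abs_le.2 this
                exact_mod_cast h8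
              have h7 : (L i : ℝ) ≤ 1 / ((k : ℝ) ^ 2 * ‖v i‖) := by
                rw [hLi]
                exact Nat.floor_le (by
                  have := hl i
                  positivity)
              calc |(c i : ℝ)| * ‖v i‖ ≤ (1 / ((k : ℝ) ^ 2 * ‖v i‖)) * ‖v i‖ :=
                    mul_le_mul_of_nonneg_right (h6.trans h7) (norm_nonneg _)
                _ = 1 / (k : ℝ) ^ 2 := by
                    have := (hl i).ne'
                    field_simp
          _ = 1 / k := by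
              rw [Finset.sum_const, Finset.card_univ, Fintype.card_fin, nsmul_eq_mul]
              field_simp
          _ ≤ (√k)⁻¹ := by
              rw [one_div]
              apply inv_anti₀ (Real.sqrt_pos.2 hk0)
              rw [Real.sqrt_le_left (by linarith)]
              nlinarith
    have hc := Set.ncard_le_ncard himg hF
    rw [Set.InjOn.ncard_image, Set.ncard_coe_finset] at hc
    · exact hc
    · intro c _ d _ hcd
      have h0 : ∑ i, ((c i - d i : ℤ) : ℝ) • v i = 0 := by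
        have h9 : ∑ i, (c i - d i) • v i = 0 := by
          simp only [sub_smul, Finset.sum_sub_distrib]
          exact sub_eq_zero.2 hcd
        rw [← h9]
        refine Finset.sum_congr rfl fun i _ => ?_
        rw [Int.cast_smul_eq_zsmul]
      have := Fintype.linearIndependent_iff.1 hv (fun i => ((c i - d i : ℤ) : ℝ)) h0
      funext i
      have h10 := this i
      have h11 : c i - d i = 0 := by exact_mod_cast h10
      omega

end H375.OG
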