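import Pool.Agent.H375R3.OG.CoreA

set_option autoImplicit false

namespace H375.OG

open H112 Finset
open scoped InnerProductSpace

theorem small_s {k s : ℕ} (hk : 0 < k) (h : ((3 : ℝ) / 2) ^ s ≤ ((3 * k ^ 4 : ℕ) : ℝ) ^ k) :
    s ≤ 10 * k ^ 2 := by
  by_contra hlt
  push Not at hlt
  have h1 : ((3 : ℝ) / 2) ^ (10 * k ^ 2) ≤ ((3 : ℝ) / 2) ^ s :=
    pow_le_pow_right₀ (by norm_num) hlt.le
  have h2 : ((3 : ℝ) / 2) ^ (10 * k ^ 2) = ((((3 : ℝ) / 2) ^ 10) ^ k) ^ k := by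
    rw [← pow_mul, ← pow_mul]
    congr 1
    ring
  have h3 : ((3 * k ^ 4 : ℕ) : ℝ) < (((3 : ℝ) / 2) ^ 10) ^ k := by
    have h4 : k ^ 4 < 16 ^ k := by
      have h5 : k < 2 ^ k := Nat.lt_two_pow_self
      calc k ^ 4 < (2 ^ k) ^ 4 := Nat.pow_lt_pow_left h5 (by norm_num)
        _ = 16 ^ k := by rw [← pow_mul, mul_comm, pow_mul]; norm_num
    have h5 : 3 * k ^ 4 < 48 ^ k := by
      have h6 : 3 ≤ 3 ^ k := by
        calc 3 = 3 ^ 1 := by norm_num
          _ ≤ 3 ^ k := Nat.pow_le_pow_right (by norm_num) hk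
      calc 3 * k ^ 4 < 3 * 16 ^ k := by omega
        _ ≤ 3 ^ k * 16 ^ k := Nat.mul_le_mul_right _ h6
        _ = (3 * 16) ^ k := (mul_pow 3 16 k).symm
        _ = 48 ^ k := by norm_num
    calc ((3 * k ^ 4 : ℕ) : ℝ) < ((48 ^ k : ℕ) : ℝ) := by exact_mod_cast h5
      _ = (48 : ℝ) ^ k := by push_cast; ring
      _ ≤ (((3 : ℝ) / 2) ^ 10) ^ k := pow_le_pow_left₀ (by norm_num) (by norm_num) k
  have h6 : ((3 * k ^ 4 : ℕ) : ℝ) ^ k < ((((3 : ℝ) / 2) ^ 10) ^ k) ^ k :=
    pow_lt_pow_left₀ h3 (Nat.cast_nonneg _) hk.ne'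
  rw [← h2] at h6
  linarith

theorem outer_core (hSS : TaskSS) : OuterCore := by
  classical
  intro k hk Λ F hF hFΛ h1 h2 hspan
  obtain ⟨b, l, a, hl0, hls, hlm, haΛ, ha, htri, hlow, hcount⟩ :=
    exists_a hk Λ F hF hFΛ h1 h2 hspan
  have hk' : (1 : ℝ) ≤ k := by exact_mod_cast hk
  have hk0 : (0 : ℝ) < k := by linarith
  have hsk : √(k : ℝ) ≤ k := by
    rw [Real.sqrt_le_left hk0.le]; nlinarith
  have hs1 : 1 ≤ √(k : ℝ) := Real.one_le_sqrt.mpr hk'
  obtain ⟨Q, hQd⟩ : ∃ Q : Fin k → ℝ, Q = fun i => (k : ℝ) ^ 2 * l i := ⟨_, rfl⟩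
  have hQi : ∀ i, Q i = (k : ℝ) ^ 2 * l i := fun i => by rw [hQd]
  simp only [← hQi] at ha
  have hQ : ∀ i, 0 < Q i := fun i => by
    rw [hQi]
    have := hl0 i
    positivity
  have horth : ∀ (t : Fin k → ℝ) (i : Fin k), |t i| * Q i ≤ 2 * ‖∑ j, t j • a j‖ :=
    near_orth b a Q hQ ha
  have hhalf : ∀ i, Q i / (2 * k) ≤ Q i / 2 := by
    intro i
    apply div_le_div_of_nonneg_left (hQ i).le (by norm_num)
    linarith
  have hnorma : ∀ i, ‖a i‖ ≤ 2 * Q i := by
    intro i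
    have h3 : ‖a i‖ ≤ ‖a i - Q i • b i‖ + ‖Q i • b i‖ := by
      have := norm_add_le (a i - Q i • b i) (Q i • b i)
      rwa [sub_add_cancel] at this
    rw [norm_smul, b.orthonormal.1 i, mul_one, Real.norm_eq_abs, abs_of_pos (hQ i)] at h3
    have h4 := ha i
    have h5 := hhalf i
    have h6 := hQ i
    linarith
  have hbaa : ∀ i, 0 < ⟪b i, a i⟫_ℝ := by
    intro i
    have h3 : |⟪b i, a i - Q i • b i⟫_ℝ| ≤ Q i / (2 * k) := by
      refine (abs_real_inner_le_norm _ _).trans ?_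
      rw [b.orthonormal.1 i, one_mul]
      exact ha i
    rw [inner_sub_right, inner_smul_right, orthonormal_iff_ite.1 b.orthonormal i i] at h3
    simp only [if_true, mul_one] at h3
    have h4 := (abs_le.1 h3).1
    have h5 := hhalf i
    have h6 := hQ i
    linarith
  -- basis
  have hali : LinearIndependent ℝ a := by
    refine Fintype.linearIndependent_iff.2 fun t ht i => ?_
    have h3 := horth t i
    rw [ht, norm_zero, mul_zero] at h3
    have h4 : |t i| * Q i = 0 := le_antisymm h3 (mul_nonneg (abs_nonneg _) (hQ i).le)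
    rcases mul_eq_zero.1 h4 with h5 | h5
    · exact abs_eq_zero.1 h5
    · exact absurd h5 (hQ i).ne'
  have hfr : Module.finrank ℝ (EuclideanSpace ℝ (Fin k)) = k := by simp
  have hcard : Fintype.card (Fin k) = Module.finrank ℝ (EuclideanSpace ℝ (Fin k)) := by
    rw [hfr, Fintype.card_fin]
  have : Nonempty (Fin k) := ⟨⟨0, hk⟩⟩
  obtain ⟨A, hA⟩ : ∃ A : Module.Basis (Fin k) ℝ (EuclideanSpace ℝ (Fin k)), ⇑A = a :=
    ⟨basisOfLinearIndependentOfCardEqFinrank hali hcard,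
      coe_basisOfLinearIndependentOfCardEqFinrank hali hcard⟩
  have hArep : ∀ x, x = ∑ i, A.repr x i • a i := by
    intro x
    have h3 := A.sum_repr x
    rw [hA] at h3
    exact h3.symm
  obtain ⟨W, hW⟩ : ∃ W : ℕ, W = 3 * k ^ 4 := ⟨_, rfl⟩
  have hWR : (W : ℝ) = 3 * (k : ℝ) ^ 4 := by rw [hW]; push_cast; ring
  have hWpos : 0 < W := by rw [hW]; positivity
  have hW0 : (0 : ℝ) < W := by exact_mod_cast hWpos
  -- small combinations
  have hcell : ∀ σ : Fin k → ℝ, (∑ j, σ j • a j) ∈ Λ → (∀ j, |σ j| < 1 / W) → ∀ j, σ j = 0 := by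
    intro σ hσΛ hσ
    by_contra hne
    push Not at hne
    obtain ⟨j', hj'⟩ := hne
    obtain ⟨S, hS⟩ : ∃ S : Finset (Fin k), S = univ.filter (fun i => σ i ≠ 0) := ⟨_, rfl⟩
    have hSne : S.Nonempty := ⟨j', by rw [hS]; exact Finset.mem_filter.2 ⟨mem_univ _, hj'⟩⟩
    obtain ⟨j, hjS, hjmax⟩ : ∃ j ∈ S, ∀ i ∈ S, i ≤ j := ⟨S.max' hSne, S.max'_mem hSne,
      fun i hi => S.le_max' i hi⟩
    have hσj : σ j ≠ 0 := by
      rw [hS] at hjS; exact (Finset.mem_filter.1 hjS).2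
    have hσ0 : ∀ i, j < i → σ i = 0 := by
      intro i hi
      by_contra h3
      have h4 : i ∈ S := by rw [hS]; exact Finset.mem_filter.2 ⟨mem_univ _, h3⟩
      exact absurd (hjmax i h4) (not_le.2 hi)
    have h3 : ⟪b j, ∑ i, σ i • a i⟫_ℝ = σ j * ⟪b j, a j⟫_ℝ := by
      rw [inner_sum, Finset.sum_eq_single j]
      · rw [inner_smul_right]
      · intro i _ hij
        rw [inner_smul_right]
        rcases lt_or_gt_of_ne hij with h4 | h4
        · rw [htri i j h4, mul_zero]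
        · rw [hσ0 i h4, zero_mul]
      · intro h; exact absurd (mem_univ j) h
    have h4 : ⟪b j, ∑ i, σ i • a i⟫_ℝ ≠ 0 := by
      rw [h3]; exact mul_ne_zero hσj (hbaa j).ne'
    have h5 := hlow _ hσΛ j h4
    have h6 : ‖∑ i, σ i • a i‖ ≤ ∑ i : Fin k, 1 / W * (2 * Q j) := by
      refine (norm_sum_le _ _).trans (Finset.sum_le_sum fun i _ => ?_)
      rw [norm_smul, Real.norm_eq_abs]
      have hQj := hQ j
      rcases lt_or_ge j i with h7 | h7
      · rw [hσ0 i h7, abs_zero, zero_mul]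
        positivity
      · have h8 : Q i ≤ Q j := by
          rw [hQi, hQi]
          exact mul_le_mul_of_nonneg_left (hlm i j h7) (by positivity)
        have h9 := hnorma i
        exact mul_le_mul (hσ i).le (by linarith) (norm_nonneg _) (by positivity)
    rw [Finset.sum_const, Finset.card_univ, Fintype.card_fin, nsmul_eq_mul] at h6
    have h7 : (k : ℝ) * (k * (1 / W * (2 * Q j))) = 2 / 3 * l j := by
      rw [hWR, hQi]
      field_simp
    have h8 : (k : ℝ) * ‖∑ i, σ i • a i‖ ≤ 2 / 3 * l j := by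
      rw [← h7]
      exact mul_le_mul_of_nonneg_left h6 hk0.le
    have h9 := hl0 j
    linarith
  -- the sublattice
  let L' : AddSubgroup Λ :=
    { carrier := {x | ∃ n : Fin k → ℤ, (x : EuclideanSpace ℝ (Fin k)) = ∑ i, n i • a i}
      zero_mem' := ⟨0, by simp⟩
      add_mem' := by
        rintro x y ⟨n, hn⟩ ⟨m, hm⟩
        refine ⟨fun i => n i + m i, ?_⟩
        rw [AddSubgroup.coe_add, hn, hm, ← Finset.sum_add_distrib]
        exact Finset.sum_congr rfl fun i _ => (add_smul _ _ _).symm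
      neg_mem' := by
        rintro x ⟨n, hn⟩
        refine ⟨fun i => - n i, ?_⟩
        rw [AddSubgroup.coe_neg, hn, ← Finset.sum_neg_distrib]
        exact Finset.sum_congr rfl fun i _ => (neg_smul _ _).symm }
  have hL' : ∀ x : Λ, x ∈ L' ↔ ∃ n : Fin k → ℤ,
      (x : EuclideanSpace ℝ (Fin k)) = ∑ i, n i • a i := fun x => Iff.rfl
  -- reduced representatives
  obtain ⟨fl, hfl⟩ : ∃ fl : Λ → Λ, ∀ x : Λ, (fl x : EuclideanSpace ℝ (Fin k)) =
      ∑ i, ⌊A.repr (x : EuclideanSpace ℝ (Fin k)) i⌋ • a i :=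
    ⟨fun x => ⟨∑ i, ⌊A.repr (x : EuclideanSpace ℝ (Fin k)) i⌋ • a i,
      AddSubgroup.sum_mem _ fun i _ => AddSubgroup.zsmul_mem _ (haΛ i) _⟩, fun x => rfl⟩
  have hflL : ∀ x, fl x ∈ L' := fun x => (hL' _).2 ⟨_, hfl x⟩
  have hred : ∀ x : Λ, ((x - fl x : Λ) : EuclideanSpace ℝ (Fin k)) =
      ∑ i, Int.fract (A.repr (x : EuclideanSpace ℝ (Fin k)) i) • a i := by
    intro x
    rw [AddSubgroup.coe_sub, hfl]
    conv_lhs => rw [hArep (x : EuclideanSpace ℝ (Fin k))]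
    rw [← Finset.sum_sub_distrib]
    refine Finset.sum_congr rfl fun i _ => ?_
    rw [← Int.cast_smul_eq_zsmul ℝ, ← sub_smul]
    congr 1
    rw [← hArep]
    exact Int.self_sub_floor _
  -- the cell map
  obtain ⟨c, hc⟩ : ∃ c : (Λ ⧸ L') → (Fin k → Fin W), ∀ q i, (c q i : ℕ) =
      ⌊(W : ℝ) * Int.fract (A.repr (q.out : EuclideanSpace ℝ (Fin k)) i)⌋₊ := by
    refine ⟨fun q i => ⟨⌊(W : ℝ) * Int.fract (A.repr (q.out : EuclideanSpace ℝ (Fin k)) i)⌋₊,
      ?_⟩, fun q i => rfl⟩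
    rw [Nat.floor_lt (by have := Int.fract_nonneg (A.repr (q.out : EuclideanSpace ℝ (Fin k)) i)
                         positivity)]
    have := Int.fract_lt_one (A.repr (q.out : EuclideanSpace ℝ (Fin k)) i)
    nlinarith
  have hcinj : Function.Injective c := by
    intro q q' hqq
    have hsmall : ∀ i, |Int.fract (A.repr (q.out : EuclideanSpace ℝ (Fin k)) i) -
        Int.fract (A.repr (q'.out : EuclideanSpace ℝ (Fin k)) i)| < 1 / W := by
      intro i
      have h3 : (c q i : ℕ) = (c q' i : ℕ) := by rw [hqq]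
      rw [hc, hc] at h3
      set f1 := Int.fract (A.repr (q.out : EuclideanSpace ℝ (Fin k)) i)
      set f2 := Int.fract (A.repr (q'.out : EuclideanSpace ℝ (Fin k)) i)
      have g1 : 0 ≤ f1 := Int.fract_nonneg _
      have g2 : 0 ≤ f2 := Int.fract_nonneg _
      have e1 := Nat.floor_le (a := (W : ℝ) * f1) (by positivity)
      have e2 := Nat.lt_floor_add_one ((W : ℝ) * f1)
      have e3 := Nat.floor_le (a := (W : ℝ) * f2) (by positivity)
      have e4 := Nat.lt_floor_add_one ((W : ℝ) * f2)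
      rw [h3] at e1 e2
      rw [lt_div_iff₀ hW0]
      have h5 : |f1 - f2| * W = |W * f1 - W * f2| := by
        rw [← mul_sub, abs_mul, abs_of_pos hW0]; ring
      rw [h5, abs_lt]
      constructor <;> linarith
    have hmem : ∑ i, (Int.fract (A.repr (q.out : EuclideanSpace ℝ (Fin k)) i) -
        Int.fract (A.repr (q'.out : EuclideanSpace ℝ (Fin k)) i)) • a i ∈ Λ := by
      simp only [sub_smul, Finset.sum_sub_distrib]
      rw [← hred, ← hred]
      exact Λ.sub_mem (SetLike.coe_mem _) (SetLike.coe_mem _)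
    have h6 := hcell _ hmem hsmall
    have h7 : (q.out : Λ) - fl q.out = q'.out - fl q'.out := by
      apply Subtype.ext
      rw [hred, hred]
      refine Finset.sum_congr rfl fun i _ => ?_
      rw [sub_eq_zero.1 (h6 i)]
    have h8 : -(q.out : Λ) + q'.out ∈ L' := by
      have h9 : -(q.out : Λ) + q'.out = fl q'.out - fl q.out := by
        calc -(q.out : Λ) + q'.out =
              -(q.out - fl q.out) + (q'.out - fl q'.out) + (fl q'.out - fl q.out) := by abel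
          _ = fl q'.out - fl q.out := by rw [h7]; abel
      rw [h9]
      exact L'.sub_mem (hflL _) (hflL _)
    have h9 : (QuotientAddGroup.mk (q.out : Λ) : Λ ⧸ L') = QuotientAddGroup.mk (q'.out : Λ) :=
      QuotientAddGroup.eq.2 h8
    rw [QuotientAddGroup.out_eq', QuotientAddGroup.out_eq'] at h9
    exact h9
  have hfin : Finite (Λ ⧸ L') := Finite.of_injective c hcinj
  have hcardQ : Nat.card (Λ ⧸ L') ≤ W ^ k := by
    refine (Nat.card_le_card_of_injective c hcinj).trans (le_of_eq ?_)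
    simp
  -- subset sums
  obtain ⟨s, g, hs, hg⟩ := hSS (Λ ⧸ L')
  have hsW : ((3 : ℝ) / 2) ^ s ≤ (W : ℝ) ^ k := by
    refine hs.trans ?_
    exact_mod_cast hcardQ
  have hs10 : s ≤ 10 * k ^ 2 := small_s hk (by rw [← hW]; exact hsW)
  have hrep : ∀ q : Λ ⧸ L', ∃ y : Λ, (QuotientAddGroup.mk y : Λ ⧸ L') = q ∧
      ‖(y : EuclideanSpace ℝ (Fin k))‖ ≤ 2 * (k : ℝ) ^ 4 := by
    intro q
    refine ⟨q.out - fl q.out, ?_, ?_⟩
    · have h3 : (QuotientAddGroup.mk (q.out - fl q.out : Λ) : Λ ⧸ L') =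
          QuotientAddGroup.mk (q.out : Λ) := by
        rw [QuotientAddGroup.eq]
        have h4 : -(q.out - fl q.out : Λ) + q.out = fl q.out := by abel
        rw [h4]
        exact hflL _
      rw [h3, QuotientAddGroup.out_eq']
    · rw [hred]
      calc ‖∑ i, Int.fract (A.repr (q.out : EuclideanSpace ℝ (Fin k)) i) • a i‖
          ≤ ∑ i, ‖Int.fract (A.repr (q.out : EuclideanSpace ℝ (Fin k)) i) • a i‖ :=
            norm_sum_le _ _
        _ ≤ ∑ i : Fin k, 2 * (k : ℝ) ^ 3 := by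
            refine Finset.sum_le_sum fun i _ => ?_
            rw [norm_smul, Real.norm_eq_abs, abs_of_nonneg (Int.fract_nonneg _)]
            have h3 := (Int.fract_lt_one (A.repr (q.out : EuclideanSpace ℝ (Fin k)) i)).le
            have h4 : ‖a i‖ ≤ 2 * (k : ℝ) ^ 3 := by
              refine (hnorma i).trans ?_
              rw [hQi]
              have h5 := hls i
              have h6 : (k : ℝ) ^ 2 * l i ≤ (k : ℝ) ^ 2 * k :=
                mul_le_mul_of_nonneg_left (by linarith) (by positivity)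
              nlinarith
            calc Int.fract (A.repr (q.out : EuclideanSpace ℝ (Fin k)) i) * ‖a i‖
                ≤ 1 * ‖a i‖ := mul_le_mul_of_nonneg_right h3 (norm_nonneg _)
              _ ≤ 2 * (k : ℝ) ^ 3 := by rw [one_mul]; exact h4
        _ = 2 * (k : ℝ) ^ 4 := by
            rw [Finset.sum_const, Finset.card_univ, Fintype.card_fin, nsmul_eq_mul]
            ring
  choose gh hgh1 hgh2 using fun j => hrep (g j)
  refine ⟨s + k, Fin.append (fun j => (gh j : EuclideanSpace ℝ (Fin k))) a,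
    Fin.append (fun _ => 2) (fun i => ⌊82 * (k : ℝ) ^ 4 / l i⌋₊), ?_, ?_, ?_, ?_⟩
  · nlinarith
  · intro i
    refine Fin.addCases (fun j => ?_) (fun j => ?_) i
    · rw [Fin.append_left]; exact SetLike.coe_mem _
    · rw [Fin.append_right]; exact haΛ j
  · intro x hx
    obtain ⟨n, hn2, hn⟩ := hg (QuotientAddGroup.mk (⟨x, hFΛ x hx⟩ : Λ))
    obtain ⟨y, hy⟩ : ∃ y : Λ, y = ⟨x, hFΛ x hx⟩ - ∑ j, n j • gh j := ⟨_, rfl⟩
    have hyL : y ∈ L' := by
      rw [← QuotientAddGroup.eq_zero_iff, hy]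
      have h3 : (QuotientAddGroup.mk (⟨x, hFΛ x hx⟩ - ∑ j, n j • gh j : Λ) : Λ ⧸ L') =
          QuotientAddGroup.mk (⟨x, hFΛ x hx⟩ : Λ) - ∑ j, n j • g j := by
        change (QuotientAddGroup.mk' L') (⟨x, hFΛ x hx⟩ - ∑ j, n j • gh j : Λ) = _
        rw [map_sub, map_sum]
        congr 1
        refine Finset.sum_congr rfl fun j _ => ?_
        rw [map_nsmul]
        congr 1
        exact hgh1 j
      rw [h3, hn, sub_self]
    obtain ⟨m, hm⟩ := (hL' y).1 hyL
    have hxy : x = ∑ j, (n j : ℤ) • (gh j : EuclideanSpace ℝ (Fin k)) + ∑ i, m i • a i := by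
      rw [← hm, hy, AddSubgroup.coe_sub, AddSubgroup.val_finsetSum]
      simp only [AddSubgroup.coe_nsmul, natCast_zsmul]
      abel
    have hynorm : ‖(y : EuclideanSpace ℝ (Fin k))‖ ≤ 41 * (k : ℝ) ^ 6 := by
      have h3 : (y : EuclideanSpace ℝ (Fin k)) =
          x - ∑ j, (n j : ℤ) • (gh j : EuclideanSpace ℝ (Fin k)) := by
        rw [hm]
        conv_rhs => rw [hxy]
        abel
      rw [h3]
      have h4 : ‖∑ j, (n j : ℤ) • (gh j : EuclideanSpace ℝ (Fin k))‖ ≤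
          ∑ j : Fin s, 4 * (k : ℝ) ^ 4 := by
        refine (norm_sum_le _ _).trans (Finset.sum_le_sum fun j _ => ?_)
        rw [← Int.cast_smul_eq_zsmul ℝ, norm_smul, Real.norm_eq_abs]
        have h5 : |(((n j : ℕ) : ℤ) : ℝ)| ≤ 2 := by
          rw [Int.cast_natCast, abs_of_nonneg (Nat.cast_nonneg _)]
          exact_mod_cast hn2 j
        calc |(((n j : ℕ) : ℤ) : ℝ)| * ‖(gh j : EuclideanSpace ℝ (Fin k))‖
            ≤ 2 * (2 * (k : ℝ) ^ 4) :=
              mul_le_mul h5 (hgh2 j) (norm_nonneg _) (by norm_num)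
          _ = 4 * (k : ℝ) ^ 4 := by ring
      rw [Finset.sum_const, Finset.card_univ, Fintype.card_fin, nsmul_eq_mul] at h4
      have h5 : (s : ℝ) ≤ 10 * (k : ℝ) ^ 2 := by exact_mod_cast hs10
      have h6 : (s : ℝ) * (4 * (k : ℝ) ^ 4) ≤ 10 * (k : ℝ) ^ 2 * (4 * (k : ℝ) ^ 4) :=
        mul_le_mul_of_nonneg_right h5 (by positivity)
      have h7 : ‖x‖ ≤ k := (h2 x hx).trans hsk
      have h8 : (k : ℝ) ≤ (k : ℝ) ^ 6 := by
        calc (k : ℝ) = (k : ℝ) ^ 1 := by ring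
          _ ≤ (k : ℝ) ^ 6 := pow_le_pow_right₀ hk' (by norm_num)
      have h10 := norm_sub_le x (∑ j, (n j : ℤ) • (gh j : EuclideanSpace ℝ (Fin k)))
      nlinarith
    refine ⟨Fin.append (fun j => (n j : ℤ)) m, ?_, ?_⟩
    · intro i
      refine Fin.addCases (fun j => ?_) (fun j => ?_) i
      · rw [Fin.append_left, Fin.append_left, abs_of_nonneg (by positivity)]
        exact_mod_cast hn2 j
      · rw [Fin.append_right, Fin.append_right]
        have h3 := horth (fun i => (m i : ℝ)) j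
        have h4 : ∑ i, (m i : ℝ) • a i = (y : EuclideanSpace ℝ (Fin k)) := by
          rw [hm]
          exact Finset.sum_congr rfl fun i _ => Int.cast_smul_eq_zsmul ℝ _ _
        rw [h4] at h3
        have h5 : |(m j : ℝ)| ≤ 82 * (k : ℝ) ^ 4 / l j := by
          rw [le_div_iff₀ (hl0 j)]
          have h6 : |(m j : ℝ)| * Q j ≤ 82 * (k : ℝ) ^ 6 := by
            refine h3.trans ?_
            nlinarith
          rw [hQi] at h6
          have h7 : (k : ℝ) ^ 2 * (|(m j : ℝ)| * l j) ≤ (k : ℝ) ^ 2 * (82 * (k : ℝ) ^ 4) := by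
            calc (k : ℝ) ^ 2 * (|(m j : ℝ)| * l j) = |(m j : ℝ)| * ((k : ℝ) ^ 2 * l j) := by ring
              _ ≤ 82 * (k : ℝ) ^ 6 := h6
              _ = (k : ℝ) ^ 2 * (82 * (k : ℝ) ^ 4) := by ring
          exact le_of_mul_le_mul_left h7 (by positivity)
        have h6 : (|m j|.toNat : ℝ) ≤ 82 * (k : ℝ) ^ 4 / l j := by
          have h7 : ((|m j|.toNat : ℕ) : ℝ) = |(m j : ℝ)| := by
            have h8 : ((|m j|.toNat : ℕ) : ℤ) = |m j| := Int.toNat_of_nonneg (abs_nonneg _)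
            have h9 := congrArg (Int.cast : ℤ → ℝ) h8
            push_cast at h9
            exact h9
          rw [h7]; exact h5
        have h7 : |m j|.toNat ≤ ⌊82 * (k : ℝ) ^ 4 / l j⌋₊ := Nat.le_floor h6
        have h8 : ((|m j|.toNat : ℕ) : ℤ) = |m j| := Int.toNat_of_nonneg (abs_nonneg _)
        rw [← h8]
        exact_mod_cast h7
    · rw [Fin.sum_univ_add]
      simp only [Fin.append_left, Fin.append_right]
      exact hxy
  · rw [Fin.prod_univ_add]
    simp only [Fin.append_left, Fin.append_right]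
    rw [Finset.prod_const, Finset.card_univ, Fintype.card_fin]
    have h5s : (2 * 2 + 1) ^ s ≤ (81 * k ^ 16) ^ k := by
      have h3 : ((5 : ℝ)) ^ s ≤ (((3 : ℝ) / 2) ^ 4) ^ s :=
        pow_le_pow_left₀ (by norm_num) (by norm_num) s
      have h4 : (((3 : ℝ) / 2) ^ 4) ^ s = (((3 : ℝ) / 2) ^ s) ^ 4 := by
        rw [← pow_mul, ← pow_mul, mul_comm]
      have h5 : (((3 : ℝ) / 2) ^ s) ^ 4 ≤ ((W : ℝ) ^ k) ^ 4 :=
        pow_le_pow_left₀ (by positivity) hsW 4
      have h6 : ((W : ℝ) ^ k) ^ 4 = (((81 * k ^ 16 : ℕ) : ℝ)) ^ k := by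
        rw [hWR, ← pow_mul, mul_comm k 4, pow_mul]
        congr 1
        push_cast
        ring
      have h7 : ((5 : ℝ)) ^ s ≤ (((81 * k ^ 16 : ℕ) : ℝ)) ^ k := by
        rw [← h6]; linarith
      have h8 : (((5 ^ s : ℕ)) : ℝ) ≤ (((81 * k ^ 16) ^ k : ℕ) : ℝ) := by
        push_cast at h7 ⊢
        exact h7
      exact_mod_cast h8
    have hT : ∀ i, 2 * ⌊82 * (k : ℝ) ^ 4 / l i⌋₊ + 1 ≤
        165 * k ^ 6 * (2 * ⌊1 / ((k : ℝ) ^ 2 * l i)⌋₊ + 1) := by
      intro i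
      have hli := hl0 i
      have e1 : ((⌊82 * (k : ℝ) ^ 4 / l i⌋₊ : ℕ) : ℝ) ≤ 82 * (k : ℝ) ^ 4 / l i :=
        Nat.floor_le (by positivity)
      have e2 := Nat.lt_floor_add_one (1 / ((k : ℝ) ^ 2 * l i))
      set T : ℕ := ⌊82 * (k : ℝ) ^ 4 / l i⌋₊
      set U : ℕ := ⌊1 / ((k : ℝ) ^ 2 * l i)⌋₊
      have e3 : 1 / l i ≤ (k : ℝ) ^ 2 * (2 * (U : ℝ) + 1) := by
        have e4 : 1 / l i = (k : ℝ) ^ 2 * (1 / ((k : ℝ) ^ 2 * l i)) := by
          field_simp
        rw [e4]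
        apply mul_le_mul_of_nonneg_left _ (by positivity)
        have : (0 : ℝ) ≤ U := Nat.cast_nonneg _
        linarith
      have e5 : (2 * (T : ℝ) + 1) ≤ 165 * (k : ℝ) ^ 6 * (2 * (U : ℝ) + 1) := by
        have e6 : 82 * (k : ℝ) ^ 4 / l i = 82 * (k : ℝ) ^ 4 * (1 / l i) := by ring
        rw [e6] at e1
        have e7 : 82 * (k : ℝ) ^ 4 * (1 / l i) ≤
            82 * (k : ℝ) ^ 4 * ((k : ℝ) ^ 2 * (2 * (U : ℝ) + 1)) :=
          mul_le_mul_of_nonneg_left e3 (by positivity)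
        have e8 : (1 : ℝ) ≤ (k : ℝ) ^ 6 * (2 * (U : ℝ) + 1) := by
          have e9 : (1 : ℝ) ≤ (k : ℝ) ^ 6 := one_le_pow₀ hk'
          have e10 : (0 : ℝ) ≤ U := Nat.cast_nonneg _
          nlinarith
        nlinarith
      exact_mod_cast e5
    calc (2 * 2 + 1) ^ s * ∏ i, (2 * ⌊82 * (k : ℝ) ^ 4 / l i⌋₊ + 1)
        ≤ (81 * k ^ 16) ^ k * ∏ i, (165 * k ^ 6 * (2 * ⌊1 / ((k : ℝ) ^ 2 * l i)⌋₊ + 1)) :=
          Nat.mul_le_mul h5s (Finset.prod_le_prod' fun i _ => hT i)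
      _ = (81 * k ^ 16) ^ k * ((165 * k ^ 6) ^ k *
            ∏ i, (2 * ⌊1 / ((k : ℝ) ^ 2 * l i)⌋₊ + 1)) := by
          rw [Finset.prod_mul_distrib, Finset.prod_const, Finset.card_univ, Fintype.card_fin]
      _ ≤ (81 * k ^ 16) ^ k * ((165 * k ^ 6) ^ k * F.ncard) := by
          exact Nat.mul_le_mul_left _ (Nat.mul_le_mul_left _ hcount)
      _ = (13365 * k ^ 22) ^ k * F.ncard := by
          rw [← mul_assoc, ← mul_pow]
          congr 2
          ring
      _ ≤ (20000 * k ^ 22) ^ k * F.ncard := by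
          apply Nat.mul_le_mul_right
          apply Nat.pow_le_pow_left
          omega

end H375.OG
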