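import Pool.Agent.H375R3.OG.Stmts
import Pool.Agent.H375R3.Tr.Final
import Pool.Agent.H112R2.FinalGap

set_option autoImplicit false
open scoped Pointwise

namespace H375.OG

open H112 H375.Pack H375.Tr Finset

theorem fin_fg (hLL : OuterLL) (hNum : TaskNum) {G : Type*} [AddCommGroup G] [AddGroup.FG G]
    [DecidableEq G] (htf : ∀ (n : ℕ) (x : G), n ≠ 0 → n • x = 0 → x = 0) {K : ℝ}
    {A : Finset G} (hA : A.Nonempty) (hK : ((A + A).card : ℝ) ≤ K * A.card) (hK1 : 1 ≤ K)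
    {s : ℕ} (hs : 1 ≤ s) :
    ∃ (d : ℕ) (v : Fin d → G) (N : Fin d → ℕ) (T : Finset G),
      (d : ℝ) ≤ (400000 * s * Real.log (2 * K)) ^ 2 ∧ (∀ i, 1 ≤ N i) ∧
      ((∏ i, N i : ℕ) : ℝ) ≤
        Real.exp (50000000 * (s : ℝ) ^ 2 *
          (Real.log (2 * K) * Real.log (2 * K) ^ (1 / (s : ℝ)))) * A.card ∧
      (T.card : ℝ) ≤ (2 * K) ^ (40000 * s) ∧
      ∀ a ∈ A, ∃ t ∈ T, ∃ n : Fin d → ℕ, (∀ i, n i < N i) ∧ a = t + ∑ i, n i • v i := by
  classical
  obtain ⟨κ, hκ⟩ : ∃ κ : ℝ, κ = Real.log (2 * K) := ⟨_, rfl⟩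
  have hs1 : (1 : ℝ) ≤ s := by exact_mod_cast hs
  have hκlog2 : Real.log 2 ≤ κ := by
    rw [hκ]; exact Real.log_le_log (by norm_num) (by linarith)
  have hκ69 : (0.69 : ℝ) ≤ κ := by
    have := Real.log_two_gt_d9
    linarith
  have hlogK : Real.log K ≤ κ := by
    rw [hκ]; exact Real.log_le_log (by linarith) (by linarith)
  obtain ⟨j, b, ε, D, hb, hD, hε, hρ, h4, hV⟩ := params hκ69 hlogK hs
  obtain ⟨S, X, hfin, hsize, hX, hXcard⟩ :=
    core' hA hK hK1 j (s := 48 * s) (by omega) hκ hb hD hε hρ h4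
  obtain ⟨m, N, ψ, hN, h1, h2, -⟩ :=
    lattice_repr S hfin (ρ := 1 / 24) (by norm_num) (by norm_num)
  haveI := ann_finite hfin
  have hbot : ann S = ⊥ := ann_eq_bot hfin htf
  obtain ⟨N₁, hN₁⟩ : ∃ N₁ : Seminorm ℝ (Fin m → ℝ), ∀ x, N₁ x = 24 * N x :=
    ⟨(24 : NNReal) • N, fun x => rfl⟩
  have hN₁0 : ∀ x, N₁ x = 0 → x = 0 := by
    intro x hx
    rw [hN₁] at hx
    exact hN x (by linarith)
  have hLLe : ∀ (c : Fin m → ℤ) (r : ℝ), c ∈ LL N₁ r ↔ c ∈ LL N (r / 24) := by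
    intro c r
    show N₁ _ ≤ r ↔ N _ ≤ r / 24
    rw [hN₁, le_div_iff₀ (by norm_num), mul_comm]
  have hker : ∀ c : Fin m → ℤ, N (fun i => (c i : ℝ)) < 1 / 2 → ψ c ∈ ann S → c = 0 := by
    intro c hc hmem
    exact LL_zero hN ((h1 c hc 0 le_rfl).1 (bohr_zero_of_ann hmem le_rfl))
  have hprop : ∀ x y : Fin m → ℤ, x ∈ LL N₁ 2 → y ∈ LL N₁ 2 → ψ x - ψ y ∈ ann S → x = y := by
    intro x y hx hy h
    rw [hLLe] at hx hy
    rw [← map_sub] at h
    apply sub_eq_zero.1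
    apply hker _ _ h
    have h3 : N (fun i => (((x - y) i : ℤ) : ℝ)) ≤ 2 / 24 + 2 / 24 := LL_sub N hx hy
    linarith
  obtain ⟨M, hM⟩ : ∃ M : ℝ, M = K * Real.exp (2 * D + 1) := ⟨_, rfl⟩
  rw [← hM] at hXcard
  have hcov : ∀ a ∈ A, ∃ t ∈ X, ∃ x ∈ LL N₁ 1, ∃ h ∈ ann S, a = t + ψ x + h := by
    intro a ha
    obtain ⟨t, ht, hb⟩ := hX a ha
    obtain ⟨c, hc, hc2⟩ := h2 _ hb
    exact ⟨t, ht, c, (hLLe c 1).2 hc, _, hc2, by abel⟩
  obtain ⟨m', e, N', F, -, hM1, hm', he, hN', hNN', hF, hcov'⟩ :=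
    lowrank K M A hA hK m N₁ hN₁0 ψ (ann S) hprop X hXcard hcov
  have hDs : D = 96 * (s * κ) := by rw [hD]; push_cast; ring
  have hsκ : κ ≤ s * κ := by nlinarith
  have hKM : Real.log (K * M) ≤ 196 * (s * κ) := by
    have hK0 : 0 < K := by linarith
    rw [hM, Real.log_mul (by positivity) (by positivity), Real.log_mul (by positivity)
      (by positivity), Real.log_exp, hDs]
    nlinarith
  have hKM0 : 0 < K * M := by positivity
  have hKMexp : K * M ≤ Real.exp (196 * (s * κ)) := by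
    rw [← Real.log_le_iff_le_exp hKM0]; exact hKM
  -- size of the convex progression
  obtain ⟨hfL, hcL⟩ := card_LL_le hfin hN h1 (R := 1 / 12) (by norm_num) (by norm_num)
  have hmaps : Set.MapsTo e (LL N' 2) (LL N (1 / 12)) := by
    intro c hc
    have h6 : N₁ (fun j => ((e c j : ℤ) : ℝ)) ≤ 2 := by
      rw [← hNN']; exact hc
    have h7 : e c ∈ LL N₁ 2 := h6
    rw [hLLe] at h7
    norm_num at h7
    exact h7
  have hfin' : (LL N' 2).Finite := Set.Finite.of_finite_image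
    (hfL.subset (Set.image_subset_iff.2 hmaps)) he.injOn
  have hsz : ((LL N' 2).ncard : ℝ) ≤
      Real.exp (60000 * s * (κ * κ ^ (1 / (s : ℝ)))) * A.card := by
    have h5 : (LL N' 2).ncard ≤ (LL N (1 / 12)).ncard :=
      Set.ncard_le_ncard_of_injOn e hmaps he.injOn hfL
    have h8 : (((LL N (1 / 12)).ncard * Nat.card (ann S) : ℕ) : ℝ) ≤
        ((bohr S (1 / 6)).ncard : ℝ) := by exact_mod_cast hcL
    have h8' : ((LL N (1 / 12)).ncard : ℝ) ≤ ((bohr S (1 / 6)).ncard : ℝ) := by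
      refine le_trans ?_ h8
      have : 0 < Nat.card (ann S) := Nat.card_pos
      exact_mod_cast Nat.le_mul_of_pos_right _ this
    have h9 : 8 * Real.exp (2 * b + 2 * Real.log K + 2 * D) ≤
        Real.exp (60000 * s * (κ * κ ^ (1 / (s : ℝ)))) := by
      have h10 : (8 : ℝ) = Real.exp (Real.log 8) := (Real.exp_log (by norm_num)).symm
      rw [h10, ← Real.exp_add]
      apply Real.exp_le_exp.2
      linarith
    calc ((LL N' 2).ncard : ℝ) ≤ ((LL N (1 / 12)).ncard : ℝ) := by exact_mod_cast h5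
      _ ≤ ((bohr S (1 / 6)).ncard : ℝ) := h8'
      _ ≤ (8 * Real.exp (2 * b + 2 * Real.log K + 2 * D)) * A.card := hsize
      _ ≤ _ := mul_le_mul_of_nonneg_right h9 (Nat.cast_nonneg _)
  have hm'κ : (m' : ℝ) ≤ 100000 * s * κ := by nlinarith
  obtain ⟨R, w, L, hR, hrep, hprod⟩ := hLL m' N' 2 (by norm_num) hfin'
  obtain ⟨φ, hφ⟩ : ∃ φ : (Fin m' → ℤ) →+ G, φ = ψ.comp e := ⟨_, rfl⟩
  have hpos0 : (0 : ℝ) ≤ κ * κ ^ (1 / (s : ℝ)) :=
    mul_nonneg (by linarith) (Real.rpow_nonneg (by linarith) _)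
  refine ⟨R, fun i => φ (w i), fun i => 2 * L i + 1,
    F.image (fun x => x - ∑ i, L i • φ (w i)), ?_,
    fun i => Nat.le_add_left 1 _, ?_, ?_, ?_⟩
  · rw [← hκ]
    have h3 : (R : ℝ) ≤ 11 * (m' : ℝ) ^ 2 := by exact_mod_cast hR
    have h5 : (m' : ℝ) ^ 2 ≤ (100000 * s * κ) ^ 2 :=
      pow_le_pow_left₀ (Nat.cast_nonneg _) hm'κ 2
    have h6 : (0 : ℝ) ≤ (s * κ) ^ 2 := sq_nonneg _
    nlinarith
  · rw [← hκ]
    have h3 : ((∏ i, (2 * L i + 1) : ℕ) : ℝ) ≤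
        (20000 * (m' : ℝ) ^ 22) ^ m' * ((LL N' 2).ncard : ℝ) := by exact_mod_cast hprod
    have h5 := hNum κ s m' hκ69 hs hm'κ
    calc ((∏ i, (2 * L i + 1) : ℕ) : ℝ) ≤
          (20000 * (m' : ℝ) ^ 22) ^ m' * ((LL N' 2).ncard : ℝ) := h3
      _ ≤ Real.exp (49000000 * (s : ℝ) ^ 2 * (κ * κ ^ (1 / (s : ℝ)))) *
            (Real.exp (60000 * s * (κ * κ ^ (1 / (s : ℝ)))) * A.card) :=
          mul_le_mul h5 hsz (Nat.cast_nonneg _) (Real.exp_pos _).le
      _ = Real.exp (49000000 * (s : ℝ) ^ 2 * (κ * κ ^ (1 / (s : ℝ))) +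
            60000 * s * (κ * κ ^ (1 / (s : ℝ)))) * A.card := by
          rw [Real.exp_add]; ring
      _ ≤ Real.exp (50000000 * (s : ℝ) ^ 2 * (κ * κ ^ (1 / (s : ℝ)))) * A.card := by
          apply mul_le_mul_of_nonneg_right _ (Nat.cast_nonneg _)
          apply Real.exp_le_exp.2
          have h6 : (s : ℝ) * (κ * κ ^ (1 / (s : ℝ))) ≤
              (s : ℝ) ^ 2 * (κ * κ ^ (1 / (s : ℝ))) :=
            mul_le_mul_of_nonneg_right (by nlinarith) hpos0
          have h7 : 0 ≤ (s : ℝ) ^ 2 * (κ * κ ^ (1 / (s : ℝ))) := by positivity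
          nlinarith
  · have h3 : (((F.image (fun x => x - ∑ i, L i • φ (w i))).card : ℕ) : ℝ) ≤ F.card := by
      exact_mod_cast Finset.card_image_le
    refine (h3.trans hF).trans ?_
    calc (K * M) ^ 186 ≤ (Real.exp (196 * (s * κ))) ^ 186 := pow_le_pow_left₀ hKM0.le hKMexp _
      _ = Real.exp (((186 : ℕ) : ℝ) * (196 * (s * κ))) := (Real.exp_nat_mul _ _).symm
      _ ≤ (2 * K) ^ (40000 * s) := by
          apply exp_le_pow hK1
          rw [← hκ]
          push_cast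
          nlinarith
  · intro a ha
    obtain ⟨x, hx, c, hc, h, hh, rfl⟩ := hcov' a ha
    rw [hbot, AddSubgroup.mem_bot] at hh
    obtain ⟨t, ht, htc⟩ := hrep c hc
    refine ⟨x - ∑ i, L i • φ (w i), Finset.mem_image_of_mem _ hx,
      fun i => (t i + L i).toNat, fun i => ?_, ?_⟩
    · have h3 := abs_le.1 (ht i)
      show (t i + L i).toNat < 2 * L i + 1
      omega
    · have h3 : ∀ i, (t i + L i).toNat • φ (w i) = t i • φ (w i) + L i • φ (w i) := by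
        intro i
        have h4 := abs_le.1 (ht i)
        have h5 : ((t i + L i).toNat : ℤ) = t i + L i := Int.toNat_of_nonneg (by omega)
        rw [← natCast_zsmul, h5, add_smul, natCast_zsmul]
      simp only [h3]
      rw [Finset.sum_add_distrib, hh, add_zero, ← hφ]
      conv_lhs => rw [htc]
      rw [map_sum]
      simp only [map_zsmul]
      abel

theorem fin_all (hLL : OuterLL) (hNum : TaskNum) {G : Type*} [AddCommGroup G]
    [DecidableEq G] (htf : ∀ (n : ℕ) (x : G), n ≠ 0 → n • x = 0 → x = 0) {K : ℝ}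
    {A : Finset G} (hA : A.Nonempty) (hK : ((A + A).card : ℝ) ≤ K * A.card)
    {s : ℕ} (hs : 1 ≤ s) :
    ∃ (d : ℕ) (v : Fin d → G) (N : Fin d → ℕ) (T : Finset G),
      (d : ℝ) ≤ (400000 * s * Real.log (2 * K)) ^ 2 ∧ (∀ i, 1 ≤ N i) ∧
      ((∏ i, N i : ℕ) : ℝ) ≤
        Real.exp (50000000 * (s : ℝ) ^ 2 *
          (Real.log (2 * K) * Real.log (2 * K) ^ (1 / (s : ℝ)))) * A.card ∧
      (T.card : ℝ) ≤ (2 * K) ^ (40000 * s) ∧
      ∀ a ∈ A, ∃ t ∈ T, ∃ n : Fin d → ℕ, (∀ i, n i < N i) ∧ a = t + ∑ i, n i • v i := by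
  classical
  have hApos : (0 : ℝ) < A.card := by exact_mod_cast hA.card_pos
  have hK1 : 1 ≤ K := by
    have h1 : (A.card : ℝ) ≤ (A + A).card := by
      exact_mod_cast Finset.card_le_card_add_right hA
    nlinarith
  obtain ⟨Γ, hΓ⟩ : ∃ Γ : AddSubgroup G, Γ = AddSubgroup.closure (A : Set G) := ⟨_, rfl⟩
  obtain ⟨A', hA'⟩ := exists_model A Γ (fun a ha => by
    rw [hΓ]; exact AddSubgroup.subset_closure ha)
  have hinj : Function.Injective Γ.subtype := Γ.subtype_injective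
  haveI : AddGroup.FG Γ := by
    rw [AddGroup.fg_iff_addSubgroup_fg]
    exact ⟨A, hΓ.symm⟩
  have hA'ne : A'.Nonempty := by
    rw [← hA'] at hA; exact Finset.image_nonempty.1 hA
  have hcard : A'.card = A.card := by
    rw [← hA', Finset.card_image_of_injective _ hinj]
  have hcard2 : (A' + A').card = (A + A).card := by
    rw [← hA', ← Finset.image_add, Finset.card_image_of_injective _ hinj]
  have hK' : ((A' + A').card : ℝ) ≤ K * A'.card := by rw [hcard2, hcard]; exact hK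
  have htf' : ∀ (n : ℕ) (x : Γ), n ≠ 0 → n • x = 0 → x = 0 := by
    intro n x hn hx
    apply hinj
    rw [map_zero]
    apply htf n _ hn
    rw [← map_nsmul, hx, map_zero]
  obtain ⟨d, v, N, T, hd, hN, hvol, hT, hcov⟩ := fin_fg hLL hNum htf' hA'ne hK' hK1 hs
  refine ⟨d, fun i => Γ.subtype (v i), N, T.image Γ.subtype, hd, hN, ?_, ?_, ?_⟩
  · rw [← hcard]; exact hvol
  · refine le_trans ?_ hT
    exact_mod_cast Finset.card_image_le
  · intro a ha
    rw [← hA'] at ha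
    obtain ⟨a', ha', rfl⟩ := Finset.mem_image.1 ha
    obtain ⟨t, ht, n, hn, e⟩ := hcov a' ha'
    refine ⟨Γ.subtype t, Finset.mem_image_of_mem _ ht, n, hn, ?_⟩
    rw [e, map_add, map_sum]
    simp only [map_nsmul]

end H375.OG
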