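import Pool.Agent.H375R3.OG.Stmts

set_option autoImplicit false

/-!
Transfer of the outer progression from the Euclidean form to the lattice points of the ball of a
seminorm.
-/

namespace H375.OG.LLt

open H112

open Finset
open scoped InnerProductSpace

theorem taskLL : H375.OG.TaskLL := by
  intro hOC m N r hr hfin
  classical
  obtain ⟨k, x, hli, hx, hc⟩ := Dim_family N hfin
  let e : (Fin m → ℤ) → (Fin m → ℝ) := fun c l => (c l : ℝ)
  have he_inj : Function.Injective e := by
    intro c d h
    funext l
    have h' : (c l : ℝ) = (d l : ℝ) := congrFun h l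
    exact_mod_cast h'
  have he_zsmul : ∀ (a : ℤ) (c : Fin m → ℤ), e (a • c) = (a : ℝ) • e c := by
    intro a c; funext l; simp [e]
  have he_sum : ∀ {ι : Type} (t : Finset ι) (f : ι → Fin m → ℤ), e (∑ i ∈ t, f i) =
      ∑ i ∈ t, e (f i) := by
    intro ι t f; funext l; simp [e]
  have hkm : k ≤ m := by
    have := hli.fintype_card_le_finrank
    simpa using this
  rcases Nat.eq_zero_or_pos k with hk0 | hkpos
  · subst hk0
    have hsub : LL N r ⊆ {0} := by
      intro y hy
      obtain ⟨a, _, ha⟩ := hc y hy
      rw [Set.mem_singleton_iff]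
      apply he_inj
      change (fun l => (y l : ℝ)) = _
      rw [ha]
      funext l
      simp [e]
    have h0mem : (0 : Fin m → ℤ) ∈ LL N r := by
      change N (fun i => ((0 : Fin m → ℤ) i : ℝ)) ≤ r
      have h0 : (fun i => ((0 : Fin m → ℤ) i : ℝ)) = (0 : Fin m → ℝ) := by funext i; simp
      rw [h0, map_zero]
      exact hr
    refine ⟨0, Fin.elim0, Fin.elim0, Nat.zero_le _, ?_, ?_⟩
    · intro y hy
      refine ⟨Fin.elim0, fun i => i.elim0, ?_⟩
      have := hsub hy
      rw [Set.mem_singleton_iff] at this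
      rw [this]
      simp
    · have hn : 0 < (LL N r).ncard := (Set.ncard_pos hfin).2 ⟨0, h0mem⟩
      have hb : 0 < (20000 * m ^ 22) ^ m := by
        rcases Nat.eq_zero_or_pos m with h | h
        · subst h; simp
        · positivity
      have : 1 ≤ (20000 * m ^ 22) ^ m * (LL N r).ncard := Nat.mul_pos hb hn
      simpa using this
  · let Φ : EuclideanSpace ℝ (Fin k) →ₗ[ℝ] (Fin m → ℝ) :=
      { toFun := fun a => ∑ i, a i • e (x i)
        map_add' := by
          intro a b
          simp only [PiLp.add_apply, add_smul, Finset.sum_add_distrib]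
        map_smul' := by
          intro c a
          simp only [PiLp.smul_apply, smul_eq_mul, mul_smul, RingHom.id_apply, Finset.smul_sum] }
    have hΦ : ∀ a, Φ a = ∑ i, a i • e (x i) := fun a => rfl
    have hΦinj : Function.Injective Φ := by
      rw [injective_iff_map_eq_zero]
      intro a ha
      rw [hΦ] at ha
      have := Fintype.linearIndependent_iff.mp hli (fun i => a i) ha
      ext i
      exact this i
    let ι : (Fin m → ℤ) →+ (Fin m → ℝ) :=
      { toFun := e
        map_zero' := by funext l; simp [e]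
        map_add' := by intro a b; funext l; simp [e] }
    let Λ : AddSubgroup (EuclideanSpace ℝ (Fin k)) := (ι.range).comap Φ.toAddMonoidHom
    have hΛ : ∀ a, a ∈ Λ ↔ ∃ c, e c = Φ a := by
      intro a
      change Φ a ∈ ι.range ↔ _
      rw [AddMonoidHom.mem_range]
      rfl
    set F : Set (EuclideanSpace ℝ (Fin k)) := Φ ⁻¹' (e '' LL N r) with hF
    have hFfin : F.Finite := (hfin.image e).preimage hΦinj.injOn
    have hFcard : F.ncard = (LL N r).ncard := by
      rw [hF, Set.ncard_preimage_of_injective_subset_range hΦinj, Set.ncard_image_of_injective _ he_inj]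
      rintro _ ⟨y, hy, rfl⟩
      obtain ⟨a, _, ha⟩ := hc y hy
      refine ⟨WithLp.toLp 2 a, ?_⟩
      rw [hΦ]
      exact ha.symm
    have hxi : ∀ i, EuclideanSpace.single i (1 : ℝ) ∈ F := by
      intro i
      refine ⟨x i, hx i, ?_⟩
      rw [hΦ, Finset.sum_eq_single i]
      · simp
      · intro j _ hj; simp [hj]
      · intro h; exact absurd (Finset.mem_univ i) h
    obtain ⟨R, w, L, hR, hwΛ, hrep, hcard⟩ := hOC k hkpos Λ F hFfin
      (by
        intro a ha
        obtain ⟨c, _, hc'⟩ := ha
        exact (hΛ a).mpr ⟨c, hc'⟩)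
      (by
        intro a ha han
        obtain ⟨c, hc'⟩ := (hΛ a).mp ha
        refine ⟨c, ?_, hc'⟩
        change N (e c) ≤ r
        rw [hc', hΦ]
        have hkk : (0 : ℝ) < k := by exact_mod_cast hkpos
        calc N (∑ i, a i • e (x i)) ≤ ∑ i, N (a i • e (x i)) := Dim_sum_le N _ _
          _ ≤ ∑ i, |a i| * r := by
              refine Finset.sum_le_sum fun i _ => ?_
              rw [map_smul_eq_mul, Real.norm_eq_abs]
              exact mul_le_mul_of_nonneg_left (hx i) (abs_nonneg _)
          _ = (∑ i, |a i|) * r := by rw [Finset.sum_mul]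
          _ ≤ 1 * r := by
              refine mul_le_mul_of_nonneg_right ?_ hr
              have h1 : (∑ i, |a i|) ^ 2 ≤ (k : ℝ) * ∑ i, |a i| ^ 2 := by
                have := sq_sum_le_card_mul_sum_sq (s := (Finset.univ : Finset (Fin k)))
                  (f := fun i => |a i|)
                rwa [Finset.card_univ, Fintype.card_fin] at this
              have h2 : ∑ i, |a i| ^ 2 = ‖a‖ ^ 2 := by
                rw [EuclideanSpace.norm_sq_eq]
                simp
              have h3 : ‖a‖ ^ 2 ≤ (k : ℝ)⁻¹ := by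
                calc ‖a‖ ^ 2 ≤ ((√k)⁻¹) ^ 2 := pow_le_pow_left₀ (norm_nonneg _) han 2
                  _ = (k : ℝ)⁻¹ := by rw [inv_pow, Real.sq_sqrt hkk.le]
              have h4 : (∑ i, |a i|) ^ 2 ≤ 1 ^ 2 := by
                calc (∑ i, |a i|) ^ 2 ≤ (k : ℝ) * ‖a‖ ^ 2 := by rw [← h2]; exact h1
                  _ ≤ k * (k : ℝ)⁻¹ := mul_le_mul_of_nonneg_left h3 hkk.le
                  _ = 1 ^ 2 := by rw [mul_inv_cancel₀ hkk.ne']; ring
              exact le_of_sq_le_sq h4 zero_le_one
          _ = r := one_mul r)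
      (by
        intro a ha
        obtain ⟨y, hy, hya⟩ := ha
        obtain ⟨c, hc1, hc2⟩ := hc y hy
        have : a = WithLp.toLp 2 c := by
          apply hΦinj
          rw [← hya, hΦ]
          exact hc2
        rw [this]
        have h5 : ‖(WithLp.toLp 2 c : EuclideanSpace ℝ (Fin k))‖ ^ 2 ≤ (√k) ^ 2 := by
          rw [EuclideanSpace.norm_sq_eq, Real.sq_sqrt (Nat.cast_nonneg k)]
          calc ∑ i, ‖c i‖ ^ 2 ≤ ∑ i : Fin k, (1 : ℝ) := by
                refine Finset.sum_le_sum fun i _ => ?_
                rw [Real.norm_eq_abs]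
                exact pow_le_one₀ (abs_nonneg _) (hc1 i)
            _ = k := by simp
        exact le_of_sq_le_sq h5 (Real.sqrt_nonneg _))
      (by
        rw [eq_top_iff]
        intro a _
        have : a = ∑ i, a i • EuclideanSpace.single i (1 : ℝ) := by
          ext j
          simp [Pi.single_apply]
        rw [this]
        exact Submodule.sum_mem _ fun i _ =>
          Submodule.smul_mem _ _ (Submodule.subset_span (hxi i)))
    have hwΛ' : ∀ i, ∃ c, e c = Φ (w i) := fun i => (hΛ (w i)).mp (hwΛ i)
    choose y hye using hwΛ'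
    refine ⟨R, y, L, hR.trans (Nat.mul_le_mul_left _ (Nat.pow_le_pow_left hkm 2)), ?_, ?_⟩
    · intro z hz
      obtain ⟨b, _, hb⟩ := hc z hz
      have hΦb : Φ (WithLp.toLp 2 b) = e z := by
        rw [hΦ]
        exact hb.symm
      have hbF : WithLp.toLp 2 b ∈ F := ⟨z, hz, hΦb.symm⟩
      obtain ⟨a, ha, hsum⟩ := hrep _ hbF
      refine ⟨a, ha, ?_⟩
      apply he_inj
      rw [he_sum, ← hΦb, hsum, map_sum]
      refine Finset.sum_congr rfl fun i _ => ?_
      rw [he_zsmul, hye, map_zsmul, Int.cast_smul_eq_zsmul]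
    · refine hcard.trans ?_
      rw [hFcard]
      apply Nat.mul_le_mul_right
      have h1 : 20000 * k ^ 22 ≤ 20000 * m ^ 22 :=
        Nat.mul_le_mul_left _ (Nat.pow_le_pow_left hkm 22)
      have h2 : 1 ≤ 20000 * m ^ 22 := by
        have : 0 < m := lt_of_lt_of_le hkpos hkm
        have : 0 < 20000 * m ^ 22 := by positivity
        exact this
      exact (Nat.pow_le_pow_left h1 k).trans (Nat.pow_le_pow_right h2 hkm)

end H375.OG.LLt
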