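import Pool.Agent.H375R3.OG.Stmts

set_option autoImplicit false

namespace H375.OG.Num

lemma log20000 : Real.log 20000 ≤ 10 := by
  rw [Real.log_le_iff_le_exp (by norm_num)]
  have h1 := Real.exp_one_gt_d9
  have h2 : Real.exp 10 = Real.exp 1 ^ 10 := by
    rw [← Real.exp_nat_mul]; norm_num
  rw [h2]
  calc (20000 : ℝ) ≤ 2.7182818283 ^ 10 := by norm_num
    _ ≤ Real.exp 1 ^ 10 := by gcongr

lemma log100000 : Real.log 100000 ≤ 12 := by
  rw [Real.log_le_iff_le_exp (by norm_num)]
  have h1 := Real.exp_one_gt_d9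
  have h2 : Real.exp 12 = Real.exp 1 ^ 12 := by
    rw [← Real.exp_nat_mul]; norm_num
  rw [h2]
  calc (100000 : ℝ) ≤ 2.7182818283 ^ 12 := by norm_num
    _ ≤ Real.exp 1 ^ 12 := by gcongr

theorem taskNum : TaskNum := by
  intro κ s m hκ hs hm
  have hκ0 : 0 < κ := by linarith
  have hs0 : (0 : ℝ) < s := by exact_mod_cast hs
  have hs1 : (1 : ℝ) ≤ s := by exact_mod_cast hs
  set t : ℝ := κ ^ (1 / (s : ℝ)) with ht
  have htpos : 0 < t := Real.rpow_pos_of_pos hκ0 _
  have ht69 : 0.69 ≤ t := by
    rcases le_or_gt 1 κ with h | h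
    · have : 1 ≤ t := Real.one_le_rpow h (by positivity)
      linarith
    · have h1 : κ ^ (1 : ℝ) ≤ κ ^ (1 / (s : ℝ)) :=
        Real.rpow_le_rpow_of_exponent_ge hκ0 h.le (by rw [div_le_one hs0]; exact hs1)
      rw [Real.rpow_one] at h1
      linarith
  have hlogk : Real.log κ ≤ s * t := by
    have h1 : Real.log t = 1 / (s : ℝ) * Real.log κ := Real.log_rpow hκ0 _
    have h2 : Real.log κ = s * Real.log t := by
      rw [h1]; field_simp
    rw [h2]
    have h3 := Real.log_le_sub_one_of_pos htpos
    exact mul_le_mul_of_nonneg_left (by linarith) hs0.le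
  rcases Nat.eq_zero_or_pos m with h0 | h0
  · subst h0
    simp only [pow_zero]
    rw [Real.one_le_exp_iff]
    positivity
  · have hm0 : (0 : ℝ) < m := by exact_mod_cast h0
    have hlogm : Real.log m ≤ 12 + s + s * t := by
      calc Real.log m ≤ Real.log (100000 * s * κ) := Real.log_le_log hm0 hm
        _ = Real.log 100000 + Real.log s + Real.log κ := by
            rw [Real.log_mul (by positivity) (by positivity), Real.log_mul (by norm_num) (by positivity)]
        _ ≤ 12 + s + s * t := by
            have := Real.log_le_sub_one_of_pos hs0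
            have := log100000
            linarith
    have hpos : (0 : ℝ) < 20000 * (m : ℝ) ^ 22 := by positivity
    have h1 : (20000 * (m : ℝ) ^ 22) ^ m = Real.exp (m * Real.log (20000 * (m : ℝ) ^ 22)) := by
      rw [Real.exp_nat_mul, Real.exp_log hpos]
    rw [h1, Real.exp_le_exp]
    have h2 : Real.log (20000 * (m : ℝ) ^ 22) = Real.log 20000 + 22 * Real.log m := by
      rw [Real.log_mul (by norm_num) (by positivity), Real.log_pow]
      norm_num
    have hst : 0.69 ≤ (s : ℝ) * t := by nlinarith
    have h3 : Real.log (20000 * (m : ℝ) ^ 22) ≤ 490 * (s * t) := by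
      rw [h2]
      have h4 := log20000
      have h5 : (s : ℝ) * 0.69 ≤ s * t := mul_le_mul_of_nonneg_left ht69 hs0.le
      nlinarith
    calc (m : ℝ) * Real.log (20000 * (m : ℝ) ^ 22) ≤ m * (490 * (s * t)) :=
          mul_le_mul_of_nonneg_left h3 hm0.le
      _ ≤ (100000 * s * κ) * (490 * (s * t)) := by
          apply mul_le_mul_of_nonneg_right hm
          positivity
      _ = 49000000 * (s : ℝ) ^ 2 * (κ * t) := by ring

end H375.OG.Num
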