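import Pool.Agent.H375R3.OG.Stmts

set_option autoImplicit false

namespace H375.OG

open Finset

theorem exists_shift {Q : Type*} [AddCommGroup Q] [Fintype Q] [DecidableEq Q] (S : Finset Q) :
    ∃ x : Q, (S ∩ S.image (fun z => x + z)).card * Fintype.card Q ≤ S.card * S.card := by
  by_contra h
  push Not at h
  have h1 : ∑ x : Q, (S ∩ S.image (fun z => x + z)).card = S.card * S.card := by
    have h2 : ∀ x : Q, (S ∩ S.image (fun z => x + z)).card =
        ∑ y ∈ S, if y - x ∈ S then 1 else 0 := by
      intro x
      rw [← Finset.card_filter]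
      congr 1
      ext y
      rw [Finset.mem_inter, Finset.mem_filter, Finset.mem_image]
      constructor
      · rintro ⟨hy, z, hz, rfl⟩
        refine ⟨hy, ?_⟩
        rw [add_sub_cancel_left]; exact hz
      · rintro ⟨hy, hz⟩
        exact ⟨hy, y - x, hz, by abel⟩
    simp_rw [h2]
    rw [Finset.sum_comm]
    have h3 : ∀ y ∈ S, ∑ x : Q, (if y - x ∈ S then 1 else 0) = S.card := by
      intro y _
      rw [← Finset.card_filter]
      refine Finset.card_nbij' (fun x => y - x) (fun z => y - z) ?_ ?_ ?_ ?_
      · intro x hx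
        exact (Finset.mem_filter.1 hx).2
      · intro z hz
        refine Finset.mem_filter.2 ⟨Finset.mem_univ _, ?_⟩
        have : y - (y - z) = z := by abel
        rw [this]; exact hz
      · intro x _
        show y - (y - x) = x
        abel
      · intro x _
        show y - (y - x) = x
        abel
    rw [Finset.sum_congr rfl h3, Finset.sum_const, smul_eq_mul]
  have h4 : ∑ _x : Q, S.card * S.card <
      ∑ x : Q, (S ∩ S.image (fun z => x + z)).card * Fintype.card Q :=
    Finset.sum_lt_sum_of_nonempty ⟨0, Finset.mem_univ _⟩ fun x _ => h x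
  have h5 : ∑ x : Q, (S ∩ S.image (fun z => x + z)).card * Fintype.card Q =
      Fintype.card Q * (S.card * S.card) := by
    rw [← Finset.sum_mul, h1, mul_comm]
  rw [h5, Finset.sum_const, Finset.card_univ, smul_eq_mul] at h4
  exact lt_irrefl _ h4

theorem greedy {Q : Type*} [AddCommGroup Q] [Fintype Q] [DecidableEq Q] (m : ℕ) :
    ∃ (s : ℕ) (g : Fin s → Q) (S : Finset Q), ((3 : ℝ) / 2) ^ s ≤ S.card ∧
      (∀ x ∈ S, ∃ n : Fin s → ℕ, (∀ j, n j ≤ 1) ∧ x = ∑ j, n j • g j) ∧
      (Fintype.card Q < 2 * S.card ∨ s = m) := by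
  induction m with
  | zero =>
    refine ⟨0, Fin.elim0, {0}, by simp, ?_, Or.inr rfl⟩
    intro x hx
    refine ⟨Fin.elim0, fun j => j.elim0, ?_⟩
    rw [Finset.mem_singleton.1 hx]
    simp
  | succ m ih =>
    obtain ⟨s, g, S, h1, h2, h3⟩ := ih
    rcases h3 with h3 | h3
    · exact ⟨s, g, S, h1, h2, Or.inl h3⟩
    by_cases h4 : Fintype.card Q < 2 * S.card
    · exact ⟨s, g, S, h1, h2, Or.inl h4⟩
    obtain ⟨x, hx⟩ := exists_shift S
    refine ⟨s + 1, Fin.snoc g x, S ∪ S.image (fun z => x + z), ?_, ?_, Or.inr (by omega)⟩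
    · have h5 : (S ∪ S.image (fun z => x + z)).card + (S ∩ S.image (fun z => x + z)).card =
          S.card + S.card := by
        rw [Finset.card_union_add_card_inter, Finset.card_image_of_injective _
          (add_right_injective x)]
      have h6 : 2 * (S ∩ S.image (fun z => x + z)).card ≤ S.card := by
        have h7 : 0 < S.card := by
          have h8 : (0 : ℝ) < S.card := lt_of_lt_of_le (by positivity) h1
          exact_mod_cast h8
        by_contra h9
        push Not at h9
        have h10 : S.card * Fintype.card Q <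
            2 * (S ∩ S.image (fun z => x + z)).card * Fintype.card Q := by
          have h11 : 0 < Fintype.card Q := Fintype.card_pos
          exact Nat.mul_lt_mul_of_pos_right h9 h11
        have h12 : 2 * (S.card * S.card) ≤ S.card * Fintype.card Q := by
          push Not at h4
          nlinarith
        nlinarith
      have h7 : (3 : ℝ) * S.card ≤ 2 * (S ∪ S.image (fun z => x + z)).card := by
        have h8 : 3 * S.card ≤ 2 * (S ∪ S.image (fun z => x + z)).card := by omega
        exact_mod_cast h8
      rw [pow_succ]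
      linarith
    · intro y hy
      rcases Finset.mem_union.1 hy with hy | hy
      · obtain ⟨n, hn, e⟩ := h2 y hy
        refine ⟨Fin.snoc n 0, ?_, ?_⟩
        · intro j
          refine Fin.lastCases ?_ (fun i => ?_) j
          · rw [Fin.snoc_last]; exact Nat.zero_le _
          · rw [Fin.snoc_castSucc]; exact hn i
        · rw [Fin.sum_univ_castSucc]
          simp only [Fin.snoc_castSucc, Fin.snoc_last, zero_smul, add_zero]
          exact e
      · obtain ⟨z, hz, rfl⟩ := Finset.mem_image.1 hy
        obtain ⟨n, hn, e⟩ := h2 z hz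
        refine ⟨Fin.snoc n 1, ?_, ?_⟩
        · intro j
          refine Fin.lastCases ?_ (fun i => ?_) j
          · rw [Fin.snoc_last]
          · rw [Fin.snoc_castSucc]; exact hn i
        · rw [Fin.sum_univ_castSucc]
          simp only [Fin.snoc_castSucc, Fin.snoc_last, one_smul]
          rw [← e]
          abel

theorem taskSS : TaskSS := by
  classical
  intro Q _ _
  have : Fintype Q := Fintype.ofFinite Q
  obtain ⟨m, hm⟩ : ∃ m : ℕ, (Fintype.card Q : ℝ) < ((3 : ℝ) / 2) ^ m :=
    pow_unbounded_of_one_lt _ (by norm_num)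
  obtain ⟨s, g, S, h1, h2, h3⟩ := greedy (Q := Q) m
  have h4 : (S.card : ℝ) ≤ Fintype.card Q := by exact_mod_cast Finset.card_le_univ S
  have h5 : Fintype.card Q < 2 * S.card := by
    rcases h3 with h3 | h3
    · exact h3
    · subst h3
      linarith
  refine ⟨s, g, ?_, ?_⟩
  · rw [Nat.card_eq_fintype_card]; linarith
  · intro q
    have h6 : (S ∩ S.image (fun z => q - z)).Nonempty := by
      rw [← Finset.card_pos]
      have h7 : (S ∪ S.image (fun z => q - z)).card + (S ∩ S.image (fun z => q - z)).card =
          S.card + S.card := by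
        rw [Finset.card_union_add_card_inter, Finset.card_image_of_injective _
          (sub_right_injective (b := q))]
      have h8 := Finset.card_le_univ (S ∪ S.image (fun z => q - z))
      omega
    obtain ⟨y, hy⟩ := h6
    obtain ⟨hy1, hy2⟩ := Finset.mem_inter.1 hy
    obtain ⟨z, hz, hzy⟩ := Finset.mem_image.1 hy2
    obtain ⟨n, hn, e⟩ := h2 y hy1
    obtain ⟨n', hn', e'⟩ := h2 z hz
    refine ⟨fun j => n j + n' j, fun j => ?_, ?_⟩
    · have := hn j
      have := hn' j
      show n j + n' j ≤ 2
      omega
    · simp only [add_smul]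
      rw [Finset.sum_add_distrib, ← e, ← e', ← hzy]
      abel

end H375.OG
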