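import Pool.Agent.H375R3.OG.Fin
import Pool.Agent.H375R3.OG.CoreB
import Pool.Agent.H375R3.OG.SSb
import Pool.Agent.H375R3.OG.LL
import Pool.Agent.H375R3.OG.Num

set_option autoImplicit false
open scoped Pointwise

namespace H375.OG

open Finset

theorem outerLL : OuterLL := LLt.taskLL (outer_core taskSS)

theorem last {G : Type*} [AddCommGroup G]
    [DecidableEq G] (htf : ∀ (n : ℕ) (x : G), n ≠ 0 → n • x = 0 → x = 0) {K : ℝ}
    {A : Finset G} (hA : A.Nonempty) (hK : ((A + A).card : ℝ) ≤ K * A.card)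
    {s : ℕ} (hs : 1 ≤ s) :
    ∃ (d : ℕ) (v : Fin d → G) (N : Fin d → ℕ) (T : Finset G),
      (d : ℝ) ≤ (400000 * s * Real.log (2 * K)) ^ 2 ∧ (∀ i, 1 ≤ N i) ∧
      ((∏ i, N i : ℕ) : ℝ) ≤
        Real.exp (50000000 * (s : ℝ) ^ 2 *
          (Real.log (2 * K) * Real.log (2 * K) ^ (1 / (s : ℝ)))) * A.card ∧
      (T.card : ℝ) ≤ (2 * K) ^ (40000 * s) ∧
      ∀ a ∈ A, ∃ t ∈ T, ∃ n : Fin d → ℕ, (∀ i, n i < N i) ∧ a = t + ∑ i, n i • v i :=
  fin_all outerLL Num.taskNum htf hA hK hs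

end H375.OG
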