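import Mathlib

set_option autoImplicit false

/-!
# Subset sums in a finite abelian group
-/

namespace H375.OG.SS

open Finset

section
variable {Q : Type} [AddCommGroup Q] [DecidableEq Q]

/-- subset sums of a list -/
def sub : List Q → Finset Q
  | [] => {0}
  | g :: l => sub l ∪ (sub l).image (fun x => g + x)

theorem sub_rep : ∀ (l : List Q) (a : Q), a ∈ sub l →
    ∃ e : Fin l.length → ℕ, (∀ j, e j ≤ 1) ∧ a = ∑ j, e j • l.get j := by
  intro l
  induction l with
  | nil =>
    intro a ha
    simp only [sub, Finset.mem_singleton] at ha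
    subst ha
    refine ⟨fun _ => 0, fun _ => by norm_num, ?_⟩
    simp
  | cons g l ih =>
    intro a ha
    simp only [sub, Finset.mem_union, Finset.mem_image] at ha
    rcases ha with ha | ⟨b, hb, rfl⟩
    · obtain ⟨e, he, hs⟩ := ih a ha
      refine ⟨Fin.cons 0 e, fun j => ?_, ?_⟩
      · refine Fin.cases ?_ (fun i => ?_) j
        · simp
        · simpa using he i
      · rw [hs]
        change _ = ∑ j : Fin (l.length + 1), (Fin.cons 0 e : Fin (l.length + 1) → ℕ) j •
          (g :: l).get j
        rw [Fin.sum_univ_succ]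
        simp
    · obtain ⟨e, he, hs⟩ := ih b hb
      refine ⟨Fin.cons 1 e, fun j => ?_, ?_⟩
      · refine Fin.cases ?_ (fun i => ?_) j
        · simp
        · simpa using he i
      · rw [hs]
        change _ = ∑ j : Fin (l.length + 1), (Fin.cons 1 e : Fin (l.length + 1) → ℕ) j •
          (g :: l).get j
        rw [Fin.sum_univ_succ]
        simp

variable [Fintype Q]

theorem sum_inter (S : Finset Q) :
    ∑ g : Q, (S ∩ S.image (fun x => g + x)).card = S.card * S.card := by
  have h1 : ∀ g : Q, (S ∩ S.image (fun x => g + x)).card = ∑ x ∈ S, if x - g ∈ S then 1 else 0 := by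
    intro g
    rw [← Finset.card_filter]
    congr 1
    ext x
    simp only [Finset.mem_inter, Finset.mem_image, Finset.mem_filter]
    constructor
    · rintro ⟨hx, y, hy, rfl⟩
      exact ⟨hx, by simpa using hy⟩
    · rintro ⟨hx, hy⟩
      exact ⟨hx, x - g, hy, by abel⟩
  simp_rw [h1]
  rw [Finset.sum_comm]
  have h2 : ∀ x ∈ S, (∑ g : Q, if x - g ∈ S then 1 else 0) = S.card := by
    intro x _
    rw [← Finset.card_filter]
    refine Finset.card_bij (fun g _ => x - g) ?_ ?_ ?_
    · intro g hg
      simpa using hg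
    · intro g _ g' _ h
      simpa using h
    · intro y hy
      exact ⟨x - y, by simpa using hy, by abel⟩
  rw [Finset.sum_congr rfl h2, Finset.sum_const, smul_eq_mul]

theorem step (S : Finset Q) (hS : 2 * S.card ≤ Fintype.card Q) :
    ∃ g : Q, 3 * S.card ≤ 2 * (S ∪ S.image (fun x => g + x)).card := by
  have hQ : 0 < Fintype.card Q := Fintype.card_pos_iff.mpr ⟨0⟩
  by_contra hcon
  push Not at hcon
  have h1 : ∀ g : Q, S.card < 2 * (S ∩ S.image (fun x => g + x)).card := by
    intro g
    have h2 := hcon g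
    have h3 := Finset.card_union_add_card_inter S (S.image (fun x => g + x))
    have h4 : (S.image (fun x => g + x)).card = S.card :=
      Finset.card_image_of_injective _ (add_right_injective g)
    omega
  have h2 : ∑ _g : Q, S.card < ∑ g : Q, 2 * (S ∩ S.image (fun x => g + x)).card := by
    refine Finset.sum_lt_sum_of_nonempty ?_ (fun g _ => h1 g)
    exact ⟨0, Finset.mem_univ _⟩
  rw [← Finset.mul_sum, sum_inter, Finset.sum_const, smul_eq_mul, Finset.card_univ] at h2
  nlinarith

theorem exists_list : ∃ l : List Q, ((3 : ℝ) / 2) ^ l.length ≤ (sub l).card ∧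
    Fintype.card Q < 2 * (sub l).card := by
  by_contra hcon
  push Not at hcon
  have key : ∀ n : ℕ, ∃ l : List Q, l.length = n ∧ ((3 : ℝ) / 2) ^ n ≤ (sub l).card := by
    intro n
    induction n with
    | zero => exact ⟨[], rfl, by simp [sub]⟩
    | succ n ih =>
      obtain ⟨l, hl, hc⟩ := ih
      have h2 := hcon l (by rw [hl]; exact hc)
      obtain ⟨g, hg⟩ := step (sub l) h2
      refine ⟨g :: l, by simp [hl], ?_⟩
      have h3 : (3 : ℝ) * ((sub l).card : ℝ) ≤ 2 * ((sub (g :: l)).card : ℝ) := by
        have h4 : 3 * (sub l).card ≤ 2 * (sub (g :: l)).card := hg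
        exact_mod_cast h4
      rw [pow_succ]
      linarith
  obtain ⟨n, hn⟩ := pow_unbounded_of_one_lt (Fintype.card Q : ℝ) (by norm_num : (1 : ℝ) < 3 / 2)
  obtain ⟨l, _, hc⟩ := key n
  have h1 : ((sub l).card : ℝ) ≤ Fintype.card Q := by
    exact_mod_cast Finset.card_le_univ _
  linarith

end

theorem taskSS : ∀ (Q : Type) [AddCommGroup Q] [Finite Q], ∃ (s : ℕ) (g : Fin s → Q),
    ((3 : ℝ) / 2) ^ s ≤ Nat.card Q ∧
    ∀ q : Q, ∃ n : Fin s → ℕ, (∀ j, n j ≤ 2) ∧ q = ∑ j, n j • g j := by
  intro Q _ _
  classical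
  have := Fintype.ofFinite Q
  obtain ⟨l, h1, h2⟩ := exists_list (Q := Q)
  refine ⟨l.length, l.get, ?_, fun q => ?_⟩
  · refine h1.trans ?_
    rw [Nat.card_eq_fintype_card]
    exact_mod_cast Finset.card_le_univ _
  · have h3 : ∃ a ∈ sub l, ∃ b ∈ sub l, a = q - b := by
      by_contra hcon
      push Not at hcon
      have h4 : Disjoint (sub l) ((sub l).image (fun b => q - b)) := by
        rw [Finset.disjoint_left]
        intro a ha hb
        obtain ⟨b, hb1, hb2⟩ := Finset.mem_image.mp hb
        exact hcon a ha b hb1 hb2.symm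
      have h5 := Finset.card_union_of_disjoint h4
      have h6 : ((sub l).image (fun b => q - b)).card = (sub l).card :=
        Finset.card_image_of_injective _ (sub_right_injective)
      have h7 := Finset.card_le_univ (sub l ∪ (sub l).image (fun b => q - b))
      omega
    obtain ⟨a, ha, b, hb, hab⟩ := h3
    obtain ⟨e, he, hes⟩ := sub_rep l a ha
    obtain ⟨e', he', hes'⟩ := sub_rep l b hb
    refine ⟨fun j => e j + e' j, fun j => ?_, ?_⟩
    · have h9 := he j
      have h10 := he' j
      change e j + e' j ≤ 2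
      omega
    · have h8 : q = a + b := by rw [hab]; abel
      simp_rw [add_smul]
      rw [Finset.sum_add_distrib, ← hes, ← hes', h8]

end H375.OG.SS
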