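import Mathlib
import Pool.Agent.H112R2.Defs
import Pool.Agent.H112R2.John

set_option autoImplicit false

/-!
# Outer progressions of high rank for convex progressions: statements
-/

namespace H375.OG

open H112

/-- Subset sums: a finite abelian group `Q` is `{∑ n_j g_j : n_j ∈ {0,1,2}}` for a short list `g`.
-/
def TaskSS : Prop :=
  ∀ (Q : Type) [AddCommGroup Q] [Finite Q], ∃ (s : ℕ) (g : Fin s → Q),
    ((3 : ℝ) / 2) ^ s ≤ Nat.card Q ∧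
    ∀ q : Q, ∃ n : Fin s → ℕ, (∀ j, n j ≤ 2) ∧ q = ∑ j, n j • g j

/-- Outer progression, Euclidean form. -/
def OuterCore : Prop :=
  ∀ (k : ℕ), 0 < k → ∀ (Λ : AddSubgroup (EuclideanSpace ℝ (Fin k)))
    (F : Set (EuclideanSpace ℝ (Fin k))), F.Finite → (∀ x ∈ F, x ∈ Λ) →
    (∀ x ∈ Λ, ‖x‖ ≤ (√k)⁻¹ → x ∈ F) → (∀ x ∈ F, ‖x‖ ≤ √k) → Submodule.span ℝ F = ⊤ →
    ∃ (r : ℕ) (w : Fin r → EuclideanSpace ℝ (Fin k)) (L : Fin r → ℕ),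
      r ≤ 11 * k ^ 2 ∧ (∀ i, w i ∈ Λ) ∧
      (∀ x ∈ F, ∃ a : Fin r → ℤ, (∀ i, |a i| ≤ L i) ∧ x = ∑ i, a i • w i) ∧
      ∏ i, (2 * L i + 1) ≤ (20000 * k ^ 22) ^ k * F.ncard

/-- Outer progression for the lattice points of the ball of a seminorm. -/
def OuterLL : Prop :=
  ∀ (m : ℕ) (N : Seminorm ℝ (Fin m → ℝ)) (r : ℝ), 0 ≤ r → (LL N r).Finite →
    ∃ (R : ℕ) (w : Fin R → (Fin m → ℤ)) (L : Fin R → ℕ), R ≤ 11 * m ^ 2 ∧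
      (∀ x ∈ LL N r, ∃ a : Fin R → ℤ, (∀ i, |a i| ≤ L i) ∧ x = ∑ i, a i • w i) ∧
      ∏ i, (2 * L i + 1) ≤ (20000 * m ^ 22) ^ m * (LL N r).ncard

/-- Transfer from the Euclidean form. -/
def TaskLL : Prop := OuterCore → OuterLL

/-- Numerical bound. -/
def TaskNum : Prop :=
  ∀ (κ : ℝ) (s m : ℕ), 0.69 ≤ κ → 1 ≤ s → (m : ℝ) ≤ 100000 * s * κ →
    (20000 * (m : ℝ) ^ 22) ^ m ≤ Real.exp (49000000 * (s : ℝ) ^ 2 * (κ * κ ^ (1 / (s : ℝ))))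

end H375.OG
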